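import Pool.Agent.H92.Carlitz.Final

/-! The isomorphism type of the cokernel of the Carlitz matrix `C_{a,b,c}`. -/

namespace Pool.Agent.Results.MP_b21485_co.CarlitzCokernel

open Pool.Agent.H92.Carlitz

/-- For all `a, b, c` the cokernel of the Carlitz matrix is the direct sum of the cyclic groups of
orders `invFactor a b c j`, `j = 0, …, b - 1`, and `invFactor a b c (j + 1)` divides
`invFactor a b c j`. -/
theorem result (a b c : ℕ) :
    Nonempty (((Fin b → ℤ) ⧸ LinearMap.range (carlitz a b c).mulVecLin) ≃+
      (∀ j : Fin b, ZMod (invFactor a b c j))) ∧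
    (∀ j, 0 < invFactor a b c j) ∧
    (∀ j, invFactor a b c (j + 1) ∣ invFactor a b c j) ∧
    (∀ q, a + b + c ≤ q → tent q a b c = 0) :=
  ⟨main a b c, invFactor_pos a b c, invFactor_dvd a b c, fun _ h => tent_eq_zero h⟩

end Pool.Agent.Results.MP_b21485_co.CarlitzCokernel
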